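import Pool.Agent.H64.Emb2

set_option autoImplicit false

namespace Pool.Agent.Results.MP_5335f7_al.TwoGen

/-- A finitely generated solvable group of derived length l embeds in a two-generated solvable
group of derived length l + 1. -/
theorem result (l : ℕ) (hl : 1 ≤ l) (G : Type) [Group G] (hG : Group.FG G)
    (hd : IsLeast {m | derivedSeries G m = ⊥} l) :
    ∃ (H : Type) (_ : Group H) (a b : H), Subgroup.closure {a, b} = ⊤ ∧
      IsLeast {m | derivedSeries H m = ⊥} (l + 1) ∧ ∃ f : G →* H, Function.Injective f :=
  Pool.Agent.H64.Emb2.main l hl G hG hd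

end Pool.Agent.Results.MP_5335f7_al.TwoGen
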